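import Pool.Agent.U126.QL.Fam
import Pool.Agent.U126.NC.Mean
import Pool.Agent.TH546.SG.Inst2

/-!
# Lines and circles which have the walk on one side, and near contacts across all times, with
constants which grow like `exp (K log³ r)`
-/

set_option autoImplicit false

namespace Pool.Agent.U126.QL

open scoped Classical
open Pool.Agent.W840.CT Pool.Agent.U126.NC Pool.Agent.U126.QP Pool.Agent.U372.HP

/-- the factor `exp (K log³ (r + 1))` -/
noncomputable def FX (K : ℝ) (r : ℕ) : ℝ := Real.exp (K * Real.log (r + 1) ^ 3)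

theorem FX_pos (K : ℝ) (r : ℕ) : 0 < FX K r := Real.exp_pos _

theorem lgr_ge {r : ℕ} (hr : 1 ≤ r) : (69 / 100 : ℝ) ≤ Real.log (r + 1) := by
  have h1 : Real.log 2 ≤ Real.log ((r : ℝ) + 1) := by
    refine Real.log_le_log (by norm_num) ?_
    have : (1 : ℝ) ≤ r := by exact_mod_cast hr
    linarith
  have := Real.log_two_gt_d9
  linarith

theorem FX_mono {K K' : ℝ} (h : K ≤ K') {r : ℕ} (hr : 1 ≤ r) : FX K r ≤ FX K' r := by
  unfold FX
  have := lgr_ge hr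
  exact Real.exp_le_exp.2 (mul_le_mul_of_nonneg_right h (by positivity))

theorem FX_add (K K' : ℝ) (r : ℕ) : FX (K + K') r = FX K r * FX K' r := by
  unfold FX
  rw [← Real.exp_add]
  ring_nf

/-- powers of `r + 1` are absorbed -/
theorem pow_le_FX {r : ℕ} (hr : 1 ≤ r) (m : ℕ) : ((r : ℝ) + 1) ^ m ≤ FX (4 * m) r := by
  unfold FX
  have h1 := lgr_ge hr
  have hr0 : (0 : ℝ) < (r : ℝ) + 1 := by positivity
  set y := Real.log ((r : ℝ) + 1) with hy
  have h2 : ((r : ℝ) + 1) ^ m = Real.exp (m * y) := by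
    rw [Real.exp_nat_mul, hy, Real.exp_log hr0]
  rw [h2]
  refine Real.exp_le_exp.2 ?_
  have h3 : (1 / 4 : ℝ) ≤ y ^ 2 := by nlinarith
  have h4 : y ≤ 4 * y ^ 3 := by nlinarith
  have hm : (0 : ℝ) ≤ m := Nat.cast_nonneg _
  nlinarith

/-- constants are absorbed -/
theorem const_FX {C : ℝ} (hC : 1 ≤ C) {r : ℕ} (hr : 1 ≤ r) : C ≤ FX (4 * Real.log C) r := by
  unfold FX
  have h1 := lgr_ge hr
  set y := Real.log ((r : ℝ) + 1) with hy
  have h2 : 0 ≤ Real.log C := Real.log_nonneg hC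
  have h3 : (1 / 4 : ℝ) ≤ y ^ 3 := by nlinarith [sq_nonneg y]
  calc C = Real.exp (Real.log C) := (Real.exp_log (by linarith)).symm
    _ ≤ _ := Real.exp_le_exp.2 (by nlinarith)

theorem lg_shift {r : ℕ} (hr : 1 ≤ r) : lg (5 * r + 25) ≤ 125 * Real.log (r + 1) ^ 3 := by
  unfold lg
  have hr1 : (1 : ℝ) ≤ r := by exact_mod_cast hr
  have h1 : Real.log (((5 * r + 25 : ℕ) : ℝ) + 1) ≤ 5 * Real.log (r + 1) := by
    have h2 : ((5 * r + 25 : ℕ) : ℝ) + 1 ≤ ((r : ℝ) + 1) ^ 5 := by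
      push_cast
      have h3 : (2 : ℝ) ≤ (r : ℝ) + 1 := by linarith
      have h4 : (16 : ℝ) ≤ ((r : ℝ) + 1) ^ 4 := by
        calc (16 : ℝ) = 2 ^ 4 := by norm_num
          _ ≤ _ := pow_le_pow_left₀ (by norm_num) h3 4
      have h5 : ((r : ℝ) + 1) ^ 5 = ((r : ℝ) + 1) ^ 4 * (r + 1) := by ring
      rw [h5]
      nlinarith
    have h3 := Real.log_le_log (by positivity) h2
    rwa [Real.log_pow, Nat.cast_ofNat] at h3
  have h0 : 0 ≤ Real.log (((5 * r + 25 : ℕ) : ℝ) + 1) := Real.log_nonneg (by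
    have : (0 : ℝ) ≤ ((5 * r + 25 : ℕ) : ℝ) := Nat.cast_nonneg _
    linarith)
  calc Real.log (((5 * r + 25 : ℕ) : ℝ) + 1) ^ 3 ≤ (5 * Real.log (r + 1)) ^ 3 :=
        pow_le_pow_left₀ h0 h1 3
    _ = _ := by ring

/-- **Lines and circles with the walk on one side.** -/
theorem lines_circles : ∃ K : ℝ, 0 < K ∧ ∀ n : ℕ, 2 ≤ n → ∀ x : ℝ, 0 ≤ x →
    ((({ω | SW n ω ∧ ¬ ∀ r : ℕ, 1 ≤ r →
      (∀ a b c : ℝ, (a ≠ 0 ∨ b ≠ 0) → (∀ i, c ≤ a * (ω i).1 + b * (ω i).2) →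
        (nL a b c r ω : ℝ) ≤ FX K r * (Real.log n + x)) ∧
      (∀ (z : ℝ × ℝ) (ρ : ℝ), (∀ i, ρ ≤ EE z (ω i)) →
        (nO z ρ r ω : ℝ) ≤ FX K r * (Real.log n + x)) ∧
      (∀ (z : ℝ × ℝ) (ρ : ℝ), (∀ i, EE z (ω i) ≤ ρ) →
        (nI z ρ r ω : ℝ) ≤ FX K r * (Real.log n + x))} :
        Set (Fin (n + 1) → ℤ × ℤ)).ncard : ℕ) : ℝ) ≤ Real.exp (-x) * cN n := by
  obtain ⟨K0, hK0, h0⟩ := Pool.Agent.U126.QP.fin Pool.Agent.U126.QP.all
  have h0' : ∀ r : ℕ, ∃ D : ℕ, 1 ≤ D ∧ TD (5 * r + 25) D ∧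
      (((2 * (5 * r + 25) + 1) ^ 2 * D : ℕ) : ℝ) ≤ Real.exp (K0 * lg (5 * r + 25)) :=
    fun r => h0 (5 * r + 25) (by omega)
  choose D hD1 hD2 hD3 using h0'
  have hDr : ∀ r : ℕ, 1 ≤ r → (D r : ℝ) ≤ FX (125 * K0) r := by
    intro r hr
    have e1 : (D r : ℝ) ≤ (((2 * (5 * r + 25) + 1) ^ 2 * D r : ℕ) : ℝ) := by
      exact_mod_cast Nat.le_mul_of_pos_left _ (by positivity)
    refine e1.trans ((hD3 r).trans ?_)
    unfold FX
    refine Real.exp_le_exp.2 ?_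
    have := lg_shift hr
    nlinarith
  refine ⟨125 * K0 + 40, by positivity, fun n hn x hx => ?_⟩
  have hl := log_ge hn
  have hn2 : (2 : ℝ) ≤ n := by exact_mod_cast hn
  -- the thresholds
  have thr_main : ∀ r : ℕ, 1 ≤ r → (D r : ℝ) * ((14 * Real.log n + r) + r + x + 3) ≤
      FX (125 * K0 + 40) r * (Real.log n + x) := by
    intro r hr
    have hr1 : (1 : ℝ) ≤ r := by exact_mod_cast hr
    have h1 : (14 * Real.log n + r) + r + x + 3 ≤ ((r : ℝ) + 1) ^ 5 * (Real.log n + x) := by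
      have h2 : (3 * (r : ℝ) + 19) ≤ ((r : ℝ) + 1) ^ 5 := by
        have h3 : (2 : ℝ) ≤ (r : ℝ) + 1 := by linarith
        have h4 : (16 : ℝ) ≤ ((r : ℝ) + 1) ^ 4 := by
          calc (16 : ℝ) = 2 ^ 4 := by norm_num
            _ ≤ _ := pow_le_pow_left₀ (by norm_num) h3 4
        have h5 : ((r : ℝ) + 1) ^ 5 = ((r : ℝ) + 1) ^ 4 * (r + 1) := by ring
        rw [h5]
        nlinarith
      have h3 : (14 * Real.log n + r) + r + x + 3 ≤ (3 * r + 19) * (Real.log n + x) := by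
        have hr0 : (0 : ℝ) ≤ r := Nat.cast_nonneg _
        nlinarith [mul_nonneg hr0 hx, mul_nonneg hr0 (by linarith : (0 : ℝ) ≤ Real.log n - 69 / 100)]
      exact h3.trans (mul_le_mul_of_nonneg_right h2 (by linarith))
    have h2 := pow_le_FX hr 5
    calc (D r : ℝ) * ((14 * Real.log n + r) + r + x + 3)
        ≤ FX (125 * K0) r * (((r : ℝ) + 1) ^ 5 * (Real.log n + x)) :=
          mul_le_mul (hDr r hr) h1 (by positivity) (FX_pos _ _).le
      _ ≤ FX (125 * K0) r * (FX (4 * (5 : ℕ)) r * (Real.log n + x)) := by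
          refine mul_le_mul_of_nonneg_left ?_ (FX_pos _ _).le
          exact mul_le_mul_of_nonneg_right h2 (by linarith)
      _ = FX (125 * K0 + 20) r * (Real.log n + x) := by
          rw [FX_add, mul_assoc]
          norm_num
      _ ≤ _ := mul_le_mul_of_nonneg_right (FX_mono (by linarith) hr) (by linarith)
  have thr_small : ∀ r : ℕ, 1 ≤ r → (2 * (r : ℝ) + 13) ^ 2 ≤
      FX (125 * K0 + 40) r * (Real.log n + x) := by
    intro r hr
    have hr1 : (1 : ℝ) ≤ r := by exact_mod_cast hr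
    have h3 : (2 : ℝ) ≤ (r : ℝ) + 1 := by linarith
    have h4 : (2 * (r : ℝ) + 13) ^ 2 * 2 ≤ ((r : ℝ) + 1) ^ 9 := by
      have h5 : (2 * (r : ℝ) + 13) ≤ 15 / 2 * (r + 1) := by linarith
      have h6 : (128 : ℝ) ≤ ((r : ℝ) + 1) ^ 7 := by
        calc (128 : ℝ) = 2 ^ 7 := by norm_num
          _ ≤ _ := pow_le_pow_left₀ (by norm_num) h3 7
      have h7 : (2 * (r : ℝ) + 13) ^ 2 ≤ (15 / 2 * (r + 1)) ^ 2 :=
        pow_le_pow_left₀ (by positivity) h5 2
      have h8 : ((r : ℝ) + 1) ^ 9 = ((r : ℝ) + 1) ^ 7 * (r + 1) ^ 2 := by ring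
      rw [h8]
      have h9 : (0 : ℝ) ≤ ((r : ℝ) + 1) ^ 2 := by positivity
      nlinarith
    have h5 := pow_le_FX hr 9
    have h6 : FX (4 * (9 : ℕ)) r ≤ FX (125 * K0 + 40) r := by
      refine FX_mono ?_ hr
      norm_num
      linarith
    have h7 : 0 < FX (125 * K0 + 40) r := FX_pos _ _
    nlinarith
  have thr_far : ∀ r : ℕ, 1 ≤ r → n ≤ r → ((n + 1 : ℕ) : ℝ) ≤
      FX (125 * K0 + 40) r * (Real.log n + x) := by
    intro r hr hnr
    have h1 := thr_small r hr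
    have h2 : (n : ℝ) ≤ r := by exact_mod_cast hnr
    push_cast
    nlinarith
  have h := fam n (U372.HP.FF n) (nb_FF n) (fun r => 5 * r + 25) D hD2 (fun r => 14 * Real.log n + r)
    (fun r => by positivity) (fun r => card_FF hn r) hx
  refine le_trans ?_ h
  have hcard : ∀ (p : Fin (n + 1) → Prop), ((Finset.univ.filter p).card : ℝ) ≤ ((n + 1 : ℕ) : ℝ) := by
    intro p
    have := Finset.card_filter_le (Finset.univ : Finset (Fin (n + 1))) p
    rw [Finset.card_univ, Fintype.card_fin] at this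
    exact_mod_cast this
  have hK0' : ∀ r : ℕ, 0 ≤ FX (125 * K0 + 40) r * (Real.log n + x) := fun r =>
    mul_nonneg (FX_pos _ _).le (by linarith)
  have key : ∀ (ω : Fin (n + 1) → ℤ × ℤ) (r : ℕ) (_ : 1 ≤ r) (m : ℕ)
      (_ : (m : ℝ) ≤ ((n + 1 : ℕ) : ℝ)),
      (m ≤ (2 * r + 13) ^ 2 ∨ ∃ A ∈ U372.HP.FF n r, (∀ i, ω i ∉ A) ∧ m ≤ nt A (5 * r + 25) ω) →
      (¬ ∃ r < n, ∃ A ∈ U372.HP.FF n r, (∀ i, ω i ∉ A) ∧
        (D r : ℝ) * ((14 * Real.log n + r) + r + x + 3) < nt A (5 * r + 25) ω) →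
      (m : ℝ) ≤ FX (125 * K0 + 40) r * (Real.log n + x) := by
    intro ω r hr1 m hm h1 h2
    rcases le_or_gt n r with hr | hr
    · exact hm.trans (thr_far r hr1 hr)
    rcases h1 with h1 | ⟨A, hA, h3, h4⟩
    · have h5 : (m : ℝ) ≤ (2 * (r : ℝ) + 13) ^ 2 := by exact_mod_cast h1
      exact h5.trans (thr_small r hr1)
    · push Not at h2
      have h5 := h2 r hr A hA h3
      have h6 : (m : ℝ) ≤ nt A (5 * r + 25) ω := by exact_mod_cast h4
      exact h6.trans (h5.trans (thr_main r hr1))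
  have hsub : ({ω | SW n ω ∧ ¬ ∀ r : ℕ, 1 ≤ r →
      (∀ a b c : ℝ, (a ≠ 0 ∨ b ≠ 0) → (∀ i, c ≤ a * (ω i).1 + b * (ω i).2) →
        (nL a b c r ω : ℝ) ≤ FX (125 * K0 + 40) r * (Real.log n + x)) ∧
      (∀ (z : ℝ × ℝ) (ρ : ℝ), (∀ i, ρ ≤ EE z (ω i)) →
        (nO z ρ r ω : ℝ) ≤ FX (125 * K0 + 40) r * (Real.log n + x)) ∧
      (∀ (z : ℝ × ℝ) (ρ : ℝ), (∀ i, EE z (ω i) ≤ ρ) →
        (nI z ρ r ω : ℝ) ≤ FX (125 * K0 + 40) r * (Real.log n + x))} :
        Set (Fin (n + 1) → ℤ × ℤ)) ⊆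
      {ω | SW n ω ∧ ∃ r < n, ∃ A ∈ U372.HP.FF n r, (∀ i, ω i ∉ A) ∧
        (D r : ℝ) * ((14 * Real.log n + r) + r + x + 3) < nt A (5 * r + 25) ω} := by
    rintro ω ⟨h1, h2⟩
    refine ⟨h1, ?_⟩
    by_contra hcon
    apply h2
    intro r hr1
    refine ⟨?_, ?_, ?_⟩
    · intro a b c hab hw
      have hle : nL a b c r ω ≤ nL a b c (r + 1) ω := by
        unfold nL
        refine Finset.card_le_card (fun i hi => ?_)
        rw [Finset.mem_filter] at hi ⊢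
        refine ⟨hi.1, hi.2.trans ?_⟩
        have := Real.sqrt_nonneg (a ^ 2 + b ^ 2)
        push_cast
        nlinarith
      have hle' : (nL a b c r ω : ℝ) ≤ nL a b c (r + 1) ω := by exact_mod_cast hle
      refine hle'.trans ?_
      rcases Nat.eq_zero_or_pos (nL a b c (r + 1) ω) with h0 | h0
      · rw [h0]; simpa using hK0' r
      · exact key ω r hr1 _ (hcard _) (Or.inr (line_set h1 hab hw r h0)) hcon
    · intro z ρ hw
      rcases Nat.eq_zero_or_pos (nO z ρ r ω) with h0 | h0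
      · rw [h0]; simpa using hK0' r
      · exact key ω r hr1 _ (hcard _) (out_set hn h1 hw r h0) hcon
    · intro z ρ hw
      rcases Nat.eq_zero_or_pos (nI z ρ r ω) with h0 | h0
      · rw [h0]; simpa using hK0' r
      · exact key ω r hr1 _ (hcard _) (Or.inr (in_set hn h1 hw r h0)) hcon
  exact_mod_cast Set.ncard_le_ncard hsub ((SW_fin n).subset (fun ω hω => hω.1))

/-- **Near contacts across all times, at all distances.** -/
theorem across_all : ∃ K : ℝ, 0 < K ∧ ∀ n : ℕ, 2 ≤ n → ∀ x : ℝ, 0 ≤ x →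
    ((({ω | SW n ω ∧ ∃ r : ℕ, 1 ≤ r ∧ ∃ t, FX K r * (Real.log n ^ 2 + x) <
      (TR (nr r) n t ω : ℝ)} : Set (Fin (n + 1) → ℤ × ℤ)).ncard : ℕ) : ℝ) ≤
      Real.exp (-x) * cN n := by
  obtain ⟨K6, hK6, h6⟩ := Pool.Agent.U126.NC.tail_all (p := 2) (by norm_num)
    Pool.Agent.TH546.SG.CU2
  obtain ⟨K7, hK7, h7⟩ := Pool.Agent.U126.QP.fin Pool.Agent.U126.QP.all
  set C : ℝ := K6 + 1 with hC
  have hC1 : 1 ≤ C := by linarith
  have hC0 : 0 ≤ Real.log C := Real.log_nonneg hC1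
  refine ⟨K7 + 100 + 20 * Real.log C, by linarith, fun n hn x hx => ?_⟩
  choose! D hD1 hD2 hD3 using h7
  set G : ℕ → ℕ := fun r => (2 * r + 1) ^ 2 * D r with hGdef
  have hlog : (0.69 : ℝ) < Real.log n := Pool.Agent.TH546.SG.log_ge hn
  have hq : (0.47 : ℝ) ≤ Real.log n ^ 2 + x := by nlinarith
  rw [cN_eq]
  set F : ℕ → ℝ := fun r =>
    Real.exp ((K7 + 100 + 20 * Real.log C) * Real.log (r + 1) ^ 3) with hF
  set y : ℕ → ℝ := fun r => x + 2 * Real.log (r + 1) with hy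
  have hlr : ∀ r : ℕ, 0 ≤ Real.log ((r : ℝ) + 1) := fun r => by
    refine Real.log_nonneg ?_
    have : (0 : ℝ) ≤ r := Nat.cast_nonneg r
    linarith
  have hCG : ∀ r : ℕ, 1 ≤ r → K6 * G r * (Real.log n ^ 2 + y r) ≤
      F r * (Real.log n ^ 2 + x) := by
    intro r hr
    have e1 : Real.log n ^ 2 + y r ≤ (1 + 5 * Real.log (r + 1)) * (Real.log n ^ 2 + x) := by
      have := hlr r
      simp only [hy]
      nlinarith
    have e2 := Pool.Agent.U126.QP.log_abs hr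
    have e3 : K6 * (G r : ℝ) ≤ C * Real.exp (K7 * Pool.Agent.U126.QP.lg r) := by
      calc K6 * (G r : ℝ) ≤ C * G r := by
            refine mul_le_mul_of_nonneg_right (by linarith) (Nat.cast_nonneg _)
        _ ≤ C * Real.exp (K7 * Pool.Agent.U126.QP.lg r) :=
            mul_le_mul_of_nonneg_left (hD3 r hr) (by linarith)
    have e4 := Pool.Agent.U126.QP.absorb hC1 (K := K7 + 100) hr
    calc K6 * G r * (Real.log n ^ 2 + y r)
        ≤ (C * Real.exp (K7 * Pool.Agent.U126.QP.lg r)) *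
          ((1 + 5 * Real.log (r + 1)) * (Real.log n ^ 2 + x)) := by
          refine mul_le_mul e3 e1 ?_ (by positivity)
          have := hlr r
          simp only [hy]
          positivity
      _ ≤ (C * Real.exp (K7 * Pool.Agent.U126.QP.lg r)) *
          (Real.exp (100 * Pool.Agent.U126.QP.lg r) * (Real.log n ^ 2 + x)) := by
          gcongr
      _ = C * Real.exp ((K7 + 100) * Pool.Agent.U126.QP.lg r) * (Real.log n ^ 2 + x) := by
          have e5 : Real.exp ((K7 + 100) * Pool.Agent.U126.QP.lg r) =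
              Real.exp (K7 * Pool.Agent.U126.QP.lg r) *
                Real.exp (100 * Pool.Agent.U126.QP.lg r) := by
            rw [← Real.exp_add]
            ring_nf
          rw [e5]
          ring
      _ ≤ F r * (Real.log n ^ 2 + x) := by
          refine mul_le_mul_of_nonneg_right e4 (by linarith)
  set E : ℕ → Set (Fin (n + 1) → ℤ × ℤ) := fun r =>
    {ω | SW n ω ∧ ∃ t, K6 * G r * (Real.log n ^ 2 + y r) < (TR (nr r) n t ω : ℝ)} with hE
  have hbound : ∀ r : ℕ, 1 ≤ r →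
      ((E r).ncard : ℝ) ≤ (Real.exp (-x) * cn n) / ((r : ℝ) + 1) ^ 2 := by
    intro r hr
    have hG1 : 1 ≤ G r := Nat.mul_pos (by positivity) (hD1 r hr)
    have hT := Pool.Agent.U126.QP.tailD (hD2 r hr)
    have hy0 : 0 ≤ y r := by
      have := hlr r
      simp only [hy]
      linarith
    have g6 := h6 (nr r) (G r) hG1 hT n hn (y r) hy0
    refine g6.trans (le_of_eq ?_)
    have hr1 : (0 : ℝ) < (r : ℝ) + 1 := by positivity
    have e1 : Real.exp (-(y r)) = Real.exp (-x) / ((r : ℝ) + 1) ^ 2 := by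
      simp only [hy]
      rw [neg_add, Real.exp_add, div_eq_mul_inv, Real.exp_neg (2 * _), two_mul, Real.exp_add,
        Real.exp_log hr1, sq]
    rw [e1]
    ring
  have hU := Pool.Agent.U126.QP.union_le (SW_finite n) E (fun r ω hω => hω.1)
    (by positivity) hbound
  refine le_trans ?_ hU
  have hsub : ({ω | SW n ω ∧ ∃ r : ℕ, 1 ≤ r ∧ ∃ t, FX (K7 + 100 + 20 * Real.log C) r *
      (Real.log n ^ 2 + x) < (TR (nr r) n t ω : ℝ)} :
      Set (Fin (n + 1) → ℤ × ℤ)) ⊆ {ω | ∃ r, 1 ≤ r ∧ ω ∈ E r} := by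
    rintro ω ⟨g1, r, hr, t, g2⟩
    exact ⟨r, hr, g1, t, (hCG r hr).trans_lt g2⟩
  have hfin : ({ω | ∃ r, 1 ≤ r ∧ ω ∈ E r} : Set (Fin (n + 1) → ℤ × ℤ)).Finite :=
    (SW_finite n).subset (fun ω hω => by obtain ⟨r, _, h⟩ := hω; exact h.1)
  have hle := Set.ncard_le_ncard hsub hfin
  exact (Nat.cast_le (α := ℝ)).2 hle

end Pool.Agent.U126.QL
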