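import Pool.Agent.U126.QL.Main
import Pool.Agent.U372.HP.Poly

/-!
# Self-avoiding polygons: lines, circles and arcs
-/

set_option autoImplicit false

namespace Pool.Agent.U126.QL

open scoped Classical
open Pool.Agent.W840.CT Pool.Agent.U126.NC Pool.Agent.U126.QP Pool.Agent.U372.HP
open Pool.Agent.TH546.SAW (IsL phi phi_mem phi_inj PL mem_PL)

/-- the pairs of vertices, one in the arc of the indices in `[s, t)`, the other one in the
complementary arc, which are within distance `r` -/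
noncomputable def arcs {N : ℕ} (r s t : ℕ) (f : ZMod (2 * N) → ℤ × ℤ) : ℕ :=
  {q : ZMod (2 * N) × ZMod (2 * N) | (s ≤ q.1.val ∧ q.1.val < t) ∧
    ¬ (s ≤ q.2.val ∧ q.2.val < t) ∧
    |(f q.2).1 - (f q.1).1| + |(f q.2).2 - (f q.1).2| ≤ (r : ℤ)}.ncard

/-- the pairs with one of the members given -/
theorem near_one {n : ℕ} {ω : Fin (n + 1) → ℤ × ℤ} (h : SW n ω) (r : ℕ) (i : Fin (n + 1)) :
    (Finset.univ.filter (fun j : Fin (n + 1) => nr r (ω i) (ω j))).card ≤ (2 * r + 1) ^ 2 := by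
  set B : Finset (ℤ × ℤ) := Finset.Icc ((ω i).1 - r) ((ω i).1 + r) ×ˢ
    Finset.Icc ((ω i).2 - r) ((ω i).2 + r) with hB
  have hc : B.card = (2 * r + 1) ^ 2 := by
    rw [hB, Finset.card_product, Int.card_Icc, Int.card_Icc, sq]
    congr 1 <;> omega
  rw [← hc]
  refine Finset.card_le_card_of_injOn ω ?_ (fun i _ j _ hij => h.2.2 hij)
  intro j hj
  simp only [Finset.coe_filter, Finset.mem_univ, true_and, Set.mem_ofPred_eq] at hj
  unfold nr at hj
  have h1 := abs_nonneg ((ω j).1 - (ω i).1)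
  have h2 := abs_nonneg ((ω j).2 - (ω i).2)
  have h3 := abs_le.1 (show |(ω j).1 - (ω i).1| ≤ (r : ℤ) by linarith)
  have h4 := abs_le.1 (show |(ω j).2 - (ω i).2| ≤ (r : ℤ) by linarith)
  rw [hB]
  simp only [Finset.coe_product, Finset.coe_Icc, Set.mem_prod, Set.mem_Icc]
  constructor <;> constructor <;> linarith [h3.1, h3.2, h4.1, h4.2]

theorem nr_symm {r : ℕ} {p q : Pt} (h : nr r p q) : nr r q p := by
  unfold nr at h ⊢
  rw [abs_sub_comm p.1, abs_sub_comm p.2]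
  exact h

/-- the pairs between two complementary arcs are across one of their two ends -/
theorem arcs_le {N : ℕ} (hN : 2 ≤ N) {f : ZMod (2 * N) → ℤ × ℤ} (hf : IsL N f) (r s t : ℕ) :
    arcs r s t f ≤ TR (nr r) (2 * N - 1) s (phi N f) + TR (nr r) (2 * N - 1) t (phi N f) +
      3 * (2 * r + 1) ^ 2 := by
  have hne : NeZero (2 * N) := ⟨by omega⟩
  have hSW : SW (2 * N - 1) (phi N f) := phi_mem (by omega) hf
  obtain ⟨ω, hω⟩ : ∃ ω, ω = phi N f := ⟨_, rfl⟩
  rw [← hω] at hSW ⊢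
  have hval : ∀ i : ZMod (2 * N), i.val < 2 * N - 1 + 1 := fun i => by
    have := ZMod.val_lt i
    omega
  have hωv : ∀ i : ZMod (2 * N), ω ⟨i.val, hval i⟩ = f i := by
    intro i
    rw [hω]
    unfold phi
    simp only [ZMod.natCast_zmod_val]
  set T1 := (Finset.univ : Finset (Fin (2 * N - 1 + 1) × Fin (2 * N - 1 + 1))).filter
    (fun q => q.1.1 < s ∧ s < q.2.1 ∧ nr r (ω q.1) (ω q.2)) with hT1
  set T2 := (Finset.univ : Finset (Fin (2 * N - 1 + 1) × Fin (2 * N - 1 + 1))).filter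
    (fun q => q.1.1 < t ∧ t < q.2.1 ∧ nr r (ω q.1) (ω q.2)) with hT2
  have hone : ∀ a : ℕ, ((Finset.univ : Finset (Fin (2 * N - 1 + 1) × Fin (2 * N - 1 + 1))).filter
      (fun q => q.1.1 = a ∧ nr r (ω q.1) (ω q.2))).card ≤ (2 * r + 1) ^ 2 := by
    intro a
    rcases Nat.lt_or_ge a (2 * N - 1 + 1) with ha | ha
    · refine le_trans ?_ (near_one hSW r ⟨a, ha⟩)
      refine Finset.card_le_card_of_injOn (fun q => q.2) ?_ ?_
      · rintro ⟨i, j⟩ hq
        simp only [Finset.coe_filter, Finset.mem_univ, true_and, Set.mem_ofPred_eq] at hq ⊢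
        have : i = ⟨a, ha⟩ := Fin.ext hq.1
        rw [← this]
        exact hq.2
      · rintro ⟨i, j⟩ hq ⟨i', j'⟩ hq' h
        simp only [Finset.coe_filter, Finset.mem_univ, true_and, Set.mem_ofPred_eq] at hq hq' h
        rw [Prod.mk.injEq]
        exact ⟨Fin.ext (hq.1.trans hq'.1.symm), h⟩
    · rw [Finset.card_eq_zero.2]
      · exact Nat.zero_le _
      · rw [Finset.filter_eq_empty_iff]
        rintro ⟨i, j⟩ - ⟨h1, -⟩
        have := i.2
        simp only at h1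
        omega
  set O := fun a : ℕ => (Finset.univ : Finset (Fin (2 * N - 1 + 1) × Fin (2 * N - 1 + 1))).filter
    (fun q => q.1.1 = a ∧ nr r (ω q.1) (ω q.2)) with hO
  have hTR1 : T1.card = TR (nr r) (2 * N - 1) s ω := rfl
  have hTR2 : T2.card = TR (nr r) (2 * N - 1) t ω := rfl
  -- the four kinds
  have hcard : arcs r s t f ≤ (T1 ∪ (T2 ∪ (O s ∪ (O t ∪ O t)))).card := by
    unfold arcs
    rw [← Set.ncard_coe_finset]
    refine Set.ncard_le_ncard_of_injOn (fun q : ZMod (2 * N) × ZMod (2 * N) =>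
      if q.2.val < s then
        (if q.1.val = s then
          ((⟨q.1.val, hval q.1⟩, ⟨q.2.val, hval q.2⟩) : Fin (2 * N - 1 + 1) × Fin (2 * N - 1 + 1))
        else (⟨q.2.val, hval q.2⟩, ⟨q.1.val, hval q.1⟩))
      else
        (if q.2.val = t then (⟨q.2.val, hval q.2⟩, ⟨q.1.val, hval q.1⟩)
        else (⟨q.1.val, hval q.1⟩, ⟨q.2.val, hval q.2⟩))) ?_ ?_ (Finset.finite_toSet _)
    · rintro ⟨a, b⟩ ⟨⟨h1, h2⟩, h3, h4⟩
      simp only at h1 h2 h3 h4
      have hnr : nr r (ω ⟨a.val, hval a⟩) (ω ⟨b.val, hval b⟩) := by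
        rw [hωv, hωv]
        exact h4
      simp only [Finset.mem_coe, Finset.mem_union]
      by_cases c1 : b.val < s
      · rw [if_pos c1]
        by_cases c2 : a.val = s
        · rw [if_pos c2]
          right; right; left
          rw [hO, Finset.mem_filter]
          exact ⟨Finset.mem_univ _, c2, hnr⟩
        · rw [if_neg c2]
          left
          rw [hT1, Finset.mem_filter]
          refine ⟨Finset.mem_univ _, c1, ?_, nr_symm hnr⟩
          simp only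
          omega
      · rw [if_neg c1]
        have c3 : t ≤ b.val := by
          by_contra hc
          exact h3 ⟨by omega, by omega⟩
        by_cases c2 : b.val = t
        · rw [if_pos c2]
          right; right; right; left
          rw [hO, Finset.mem_filter]
          exact ⟨Finset.mem_univ _, c2, nr_symm hnr⟩
        · rw [if_neg c2]
          right; left
          rw [hT2, Finset.mem_filter]
          refine ⟨Finset.mem_univ _, h2, ?_, hnr⟩
          simp only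
          omega
    · rintro ⟨a, b⟩ ⟨⟨h1, h2⟩, h3, h4⟩ ⟨a', b'⟩ ⟨⟨h1', h2'⟩, h3', h4'⟩ h
      simp only at h1 h2 h3 h4 h1' h2' h3' h4' h
      have key : a.val = a'.val ∧ b.val = b'.val := by
        split_ifs at h with c1 c2 c3 c4 c5 c6 c7 c8 c9 c10 <;>
          simp only [Prod.mk.injEq, Fin.mk.injEq] at h <;> omega
      rw [Prod.mk.injEq]
      exact ⟨ZMod.val_injective _ key.1, ZMod.val_injective _ key.2⟩
  refine hcard.trans ?_
  have u1 := Finset.card_union_le T1 (T2 ∪ (O s ∪ (O t ∪ O t)))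
  have u2 := Finset.card_union_le T2 (O s ∪ (O t ∪ O t))
  have u3 := Finset.card_union_le (O s) (O t ∪ O t)
  have u4 := Finset.card_union_le (O t) (O t)
  have o1 := hone s
  have o2 := hone t
  have o1' : (O s).card ≤ (2 * r + 1) ^ 2 := o1
  have o2' : (O t).card ≤ (2 * r + 1) ^ 2 := o2
  rw [hTR1] at u1
  rw [hTR2] at u2
  omega

/-- **Lines, circles and arcs of a polygon.** -/
theorem poly_all : ∃ K : ℝ, 0 < K ∧ ∀ N : ℕ, 2 ≤ N → ∀ x : ℝ, 0 ≤ x →
    (((PL N).filter (fun f => ¬ ∀ r : ℕ, 1 ≤ r →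
      (∀ a b c : ℝ, (a ≠ 0 ∨ b ≠ 0) → (∀ i, c ≤ a * (f i).1 + b * (f i).2) →
        ((({i | a * (f i).1 + b * (f i).2 ≤ c + r * Real.sqrt (a ^ 2 + b ^ 2)} :
          Set (ZMod (2 * N))).ncard : ℕ) : ℝ) ≤ FX K r * (Real.log N ^ 2 + x)) ∧
      (∀ (z : ℝ × ℝ) (ρ : ℝ), (∀ i, ρ ≤ EE z (f i)) →
        ((({i | EE z (f i) ≤ ρ + r} : Set (ZMod (2 * N))).ncard : ℕ) : ℝ) ≤
          FX K r * (Real.log N ^ 2 + x)) ∧
      (∀ (z : ℝ × ℝ) (ρ : ℝ), (∀ i, EE z (f i) ≤ ρ) →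
        ((({i | ρ - r ≤ EE z (f i)} : Set (ZMod (2 * N))).ncard : ℕ) : ℝ) ≤
          FX K r * (Real.log N ^ 2 + x)) ∧
      ∀ s t : ℕ, (arcs r s t f : ℝ) ≤ FX K r * (Real.log N ^ 2 + x))).card : ℝ) ≤
        Real.exp (-x) * (PL N).card := by
  obtain ⟨K, hK, h⟩ := poly_prob
  obtain ⟨K1, hK1, h1⟩ := lines_circles
  obtain ⟨K2, hK2, h2⟩ := across_all
  set C : ℝ := 2 * (K + 20) with hC
  have hC1 : 1 ≤ C := by linarith
  have hC0 : 0 ≤ Real.log C := Real.log_nonneg hC1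
  refine ⟨K1 + K2 + 4 * Real.log C + 40, by positivity, fun N hN x hx => ?_⟩
  have hl := log_ge hN
  have hN0 : (2 : ℝ) ≤ N := by exact_mod_cast hN
  set n := 2 * N - 1 with hn
  have hn2 : 2 ≤ n := by omega
  set y : ℝ := x + 1 + K * Real.log N ^ 2 with hy
  have hy0 : 0 ≤ y := by positivity
  have g1 := h1 n hn2 y hy0
  have g2 := h2 n hn2 y hy0
  obtain ⟨E1, hE1⟩ : ∃ E : Set (Fin (n + 1) → ℤ × ℤ), E = {ω | ¬ ∀ r : ℕ, 1 ≤ r →
      (∀ a b c : ℝ, (a ≠ 0 ∨ b ≠ 0) → (∀ i, c ≤ a * (ω i).1 + b * (ω i).2) →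
        (nL a b c r ω : ℝ) ≤ FX K1 r * (Real.log n + y)) ∧
      (∀ (z : ℝ × ℝ) (ρ : ℝ), (∀ i, ρ ≤ EE z (ω i)) →
        (nO z ρ r ω : ℝ) ≤ FX K1 r * (Real.log n + y)) ∧
      (∀ (z : ℝ × ℝ) (ρ : ℝ), (∀ i, EE z (ω i) ≤ ρ) →
        (nI z ρ r ω : ℝ) ≤ FX K1 r * (Real.log n + y))} := ⟨_, rfl⟩
  obtain ⟨E2, hE2⟩ : ∃ E : Set (Fin (n + 1) → ℤ × ℤ), E = {ω | ∃ r : ℕ, 1 ≤ r ∧ ∃ t,
      FX K2 r * (Real.log n ^ 2 + y) < (TR (nr r) n t ω : ℝ)} := ⟨_, rfl⟩
  have e1 : ((({ω | SW n ω ∧ ω ∈ E1} : Set (Fin (n + 1) → ℤ × ℤ)).ncard : ℕ) : ℝ) ≤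
      Real.exp (-y) * cN n := by
    rw [hE1]
    exact g1
  have e2 : ((({ω | SW n ω ∧ ω ∈ E2} : Set (Fin (n + 1) → ℤ × ℤ)).ncard : ℕ) : ℝ) ≤
      Real.exp (-y) * cN n := by
    rw [hE2]
    exact g2
  have f1 := h N hN E1 y e1
  have f2 := h N hN E2 y e2
  have hexp : Real.exp (-y + K * Real.log N ^ 2) ≤ Real.exp (-x) / 2 := by
    rw [hy, show -(x + 1 + K * Real.log N ^ 2) + K * Real.log N ^ 2 = -x + -1 by ring,
      Real.exp_add]
    have h6 : Real.exp (-1) ≤ 1 / 2 := by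
      rw [Real.exp_neg, one_div]
      refine inv_anti₀ (by norm_num) ?_
      have := Real.exp_one_gt_d9
      linarith
    have := Real.exp_pos (-x)
    nlinarith
  have hlogn : Real.log (n : ℝ) ≤ 2 * Real.log N := by
    have h3 : Real.log (n : ℝ) ≤ Real.log (2 * N) := by
      refine Real.log_le_log ?_ ?_
      · exact_mod_cast (by omega : 0 < n)
      · have : ((2 * N - 1 : ℕ) : ℝ) ≤ ((2 * N : ℕ) : ℝ) := by exact_mod_cast Nat.sub_le _ _
        push_cast at this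
        exact this
    rw [Real.log_mul (by norm_num) (by linarith)] at h3
    have := Real.log_le_log (by norm_num) hN0
    linarith
  have hlogn0 : 0 ≤ Real.log (n : ℝ) := Real.log_nonneg (by
    have : 1 ≤ n := by omega
    exact_mod_cast this)
  have hsq : Real.log (n : ℝ) ^ 2 ≤ 4 * Real.log N ^ 2 := by nlinarith
  have hq : (0.47 : ℝ) ≤ Real.log N ^ 2 + x := by nlinarith
  have hL1 : Real.log (n : ℝ) + y ≤ (K + 20) * (Real.log N ^ 2 + x) := by
    rw [hy]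
    nlinarith
  have hL2 : Real.log (n : ℝ) ^ 2 + y ≤ (K + 20) * (Real.log N ^ 2 + x) := by
    rw [hy]
    nlinarith
  have hCF : ∀ r : ℕ, 1 ≤ r → ∀ K' : ℝ, 0 ≤ K' → K' ≤ K1 + K2 →
      FX K' r * (C * (Real.log N ^ 2 + x)) ≤
        FX (K1 + K2 + 4 * Real.log C + 30) r * (Real.log N ^ 2 + x) := by
    intro r hr K' hK'0 hK'
    have a1 := const_FX hC1 hr
    have a2 : FX K' r * C ≤ FX (K1 + K2 + 4 * Real.log C + 30) r := by
      calc FX K' r * C ≤ FX K' r * FX (4 * Real.log C) r :=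
            mul_le_mul_of_nonneg_left a1 (FX_pos _ _).le
        _ = FX (K' + 4 * Real.log C) r := (FX_add _ _ _).symm
        _ ≤ _ := FX_mono (by linarith) hr
    calc FX K' r * (C * (Real.log N ^ 2 + x)) = FX K' r * C * (Real.log N ^ 2 + x) := by ring
      _ ≤ _ := mul_le_mul_of_nonneg_right a2 (by linarith)
  have hCF' : ∀ r : ℕ, 1 ≤ r → FX (K1 + K2 + 4 * Real.log C + 30) r * (Real.log N ^ 2 + x) ≤
      FX (K1 + K2 + 4 * Real.log C + 40) r * (Real.log N ^ 2 + x) := fun r hr =>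
    mul_le_mul_of_nonneg_right (FX_mono (by linarith) hr) (by linarith)
  have hCw : (K + 20) ≤ C := by linarith
  have hthr1 : ∀ r : ℕ, 1 ≤ r → FX K1 r * (Real.log (n : ℝ) + y) ≤
      FX (K1 + K2 + 4 * Real.log C + 40) r * (Real.log N ^ 2 + x) := by
    intro r hr
    refine le_trans ?_ ((hCF r hr K1 hK1.le (by linarith)).trans (hCF' r hr))
    refine mul_le_mul_of_nonneg_left (hL1.trans ?_) (FX_pos _ _).le
    exact mul_le_mul_of_nonneg_right hCw (by linarith)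
  have harc : ∀ r : ℕ, 1 ≤ r → 2 * (FX K2 r * (Real.log (n : ℝ) ^ 2 + y)) +
      3 * (2 * (r : ℝ) + 1) ^ 2 ≤
      FX (K1 + K2 + 4 * Real.log C + 40) r * (Real.log N ^ 2 + x) := by
    intro r hr
    have hr1 : (1 : ℝ) ≤ r := by exact_mod_cast hr
    have b1 : 2 * (FX K2 r * (Real.log (n : ℝ) ^ 2 + y)) ≤
        FX (K1 + K2 + 4 * Real.log C + 30) r * (Real.log N ^ 2 + x) := by
      refine le_trans ?_ (hCF r hr K2 hK2.le (by linarith))
      have := mul_le_mul_of_nonneg_left hL2 (FX_pos K2 r).le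
      calc 2 * (FX K2 r * (Real.log (n : ℝ) ^ 2 + y))
          ≤ 2 * (FX K2 r * ((K + 20) * (Real.log N ^ 2 + x))) := by linarith
        _ = _ := by rw [hC]; ring
    have b2 : 3 * (2 * (r : ℝ) + 1) ^ 2 ≤
        FX (K1 + K2 + 4 * Real.log C + 30) r * (Real.log N ^ 2 + x) := by
      have c1 := pow_le_FX hr 7
      have c2 : FX (4 * (7 : ℕ)) r ≤ FX (K1 + K2 + 4 * Real.log C + 30) r := by
        refine FX_mono ?_ hr
        norm_num
        linarith
      have c3 : 3 * (2 * (r : ℝ) + 1) ^ 2 ≤ ((r : ℝ) + 1) ^ 7 * (47 / 100) := by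
        have h3 : (2 : ℝ) ≤ (r : ℝ) + 1 := by linarith
        have h4 : (32 : ℝ) ≤ ((r : ℝ) + 1) ^ 5 := by
          calc (32 : ℝ) = 2 ^ 5 := by norm_num
            _ ≤ _ := pow_le_pow_left₀ (by norm_num) h3 5
        have h8 : ((r : ℝ) + 1) ^ 7 = ((r : ℝ) + 1) ^ 5 * (r + 1) ^ 2 := by ring
        rw [h8]
        nlinarith [sq_nonneg ((r : ℝ) + 1)]
      have c4 : 0 < FX (K1 + K2 + 4 * Real.log C + 30) r := FX_pos _ _
      nlinarith
    have b3 : 2 * FX (K1 + K2 + 4 * Real.log C + 30) r ≤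
        FX (K1 + K2 + 4 * Real.log C + 40) r := by
      have c1 := pow_le_FX hr 1
      have c2 : (2 : ℝ) ≤ FX (4 * (1 : ℕ)) r := by
        refine le_trans ?_ c1
        rw [pow_one]
        linarith
      calc 2 * FX (K1 + K2 + 4 * Real.log C + 30) r
          ≤ FX (4 * (1 : ℕ)) r * FX (K1 + K2 + 4 * Real.log C + 30) r :=
            mul_le_mul_of_nonneg_right c2 (FX_pos _ _).le
        _ = FX (4 * (1 : ℕ) + (K1 + K2 + 4 * Real.log C + 30)) r := (FX_add _ _ _).symm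
        _ ≤ _ := by
          refine FX_mono ?_ hr
          norm_num
          linarith
    calc _ ≤ 2 * FX (K1 + K2 + 4 * Real.log C + 30) r * (Real.log N ^ 2 + x) := by linarith
      _ ≤ _ := mul_le_mul_of_nonneg_right b3 (by linarith)
  have hall : ∀ (f : ZMod (2 * N) → ℤ × ℤ) (P : ℤ × ℤ → Prop), (∀ i, P (f i)) →
      ∀ k : Fin (n + 1), P (phi N f k) := fun f P hP k => hP _
  have hsub : (PL N).filter (fun f => ¬ ∀ r : ℕ, 1 ≤ r →
      (∀ a b c : ℝ, (a ≠ 0 ∨ b ≠ 0) → (∀ i, c ≤ a * (f i).1 + b * (f i).2) →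
        ((({i | a * (f i).1 + b * (f i).2 ≤ c + r * Real.sqrt (a ^ 2 + b ^ 2)} :
          Set (ZMod (2 * N))).ncard : ℕ) : ℝ) ≤
            FX (K1 + K2 + 4 * Real.log C + 40) r * (Real.log N ^ 2 + x)) ∧
      (∀ (z : ℝ × ℝ) (ρ : ℝ), (∀ i, ρ ≤ EE z (f i)) →
        ((({i | EE z (f i) ≤ ρ + r} : Set (ZMod (2 * N))).ncard : ℕ) : ℝ) ≤
          FX (K1 + K2 + 4 * Real.log C + 40) r * (Real.log N ^ 2 + x)) ∧
      (∀ (z : ℝ × ℝ) (ρ : ℝ), (∀ i, EE z (f i) ≤ ρ) →
        ((({i | ρ - r ≤ EE z (f i)} : Set (ZMod (2 * N))).ncard : ℕ) : ℝ) ≤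
          FX (K1 + K2 + 4 * Real.log C + 40) r * (Real.log N ^ 2 + x)) ∧
      ∀ s t : ℕ, (arcs r s t f : ℝ) ≤
        FX (K1 + K2 + 4 * Real.log C + 40) r * (Real.log N ^ 2 + x)) ⊆
      (PL N).filter (fun f => phi N f ∈ E1) ∪ (PL N).filter (fun f => phi N f ∈ E2) := by
    intro f hf
    rw [Finset.mem_filter] at hf
    rw [Finset.mem_union, Finset.mem_filter, Finset.mem_filter]
    by_contra hcon
    rw [not_or] at hcon
    obtain ⟨q1, q2⟩ := hcon
    have p1 : phi N f ∉ E1 := fun hh => q1 ⟨hf.1, hh⟩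
    have p2 : phi N f ∉ E2 := fun hh => q2 ⟨hf.1, hh⟩
    rw [hE1, Set.mem_ofPred_eq, not_not] at p1
    rw [hE2, Set.mem_ofPred_eq] at p2
    push Not at p2
    apply hf.2
    intro r hr
    obtain ⟨r1, r2, r3⟩ := p1 r hr
    refine ⟨?_, ?_, ?_, ?_⟩
    · intro a b c hab hw
      have h3 := r1 a b c hab (hall f (fun p => c ≤ a * p.1 + b * p.2) hw)
      have h4 := card_phi hN f (fun p => a * p.1 + b * p.2 ≤ c + r * Real.sqrt (a ^ 2 + b ^ 2))
      have h5 : ((({i | a * (f i).1 + b * (f i).2 ≤ c + r * Real.sqrt (a ^ 2 + b ^ 2)} :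
          Set (ZMod (2 * N))).ncard : ℕ) : ℝ) ≤ (nL a b c r (phi N f) : ℝ) := by exact_mod_cast h4
      exact h5.trans (h3.trans (hthr1 r hr))
    · intro z ρ hw
      have h3 := r2 z ρ (hall f (fun p => ρ ≤ EE z p) hw)
      have h4 := card_phi hN f (fun p => EE z p ≤ ρ + r)
      have h5 : ((({i | EE z (f i) ≤ ρ + r} : Set (ZMod (2 * N))).ncard : ℕ) : ℝ) ≤
          (nO z ρ r (phi N f) : ℝ) := by exact_mod_cast h4
      exact h5.trans (h3.trans (hthr1 r hr))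
    · intro z ρ hw
      have h3 := r3 z ρ (hall f (fun p => EE z p ≤ ρ) hw)
      have h4 := card_phi hN f (fun p => ρ - r ≤ EE z p)
      have h5 : ((({i | ρ - r ≤ EE z (f i)} : Set (ZMod (2 * N))).ncard : ℕ) : ℝ) ≤
          (nI z ρ r (phi N f) : ℝ) := by exact_mod_cast h4
      exact h5.trans (h3.trans (hthr1 r hr))
    · intro s t
      have h3 := arcs_le hN ((mem_PL (by omega)).1 hf.1) r s t
      have h4 : (arcs r s t f : ℝ) ≤ (TR (nr r) n s (phi N f) : ℝ) +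
          (TR (nr r) n t (phi N f) : ℝ) + 3 * (2 * (r : ℝ) + 1) ^ 2 := by
        exact_mod_cast h3
      have h5 := p2 r hr s
      have h6 := p2 r hr t
      have h7 := harc r hr
      linarith
  have hfin : (((PL N).filter (fun f => phi N f ∈ E1) ∪
      (PL N).filter (fun f => phi N f ∈ E2)).card : ℝ) ≤ Real.exp (-x) * (PL N).card := by
    have h3 := Finset.card_union_le ((PL N).filter (fun f => phi N f ∈ E1))
      ((PL N).filter (fun f => phi N f ∈ E2))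
    have h4 : (((PL N).filter (fun f => phi N f ∈ E1) ∪
        (PL N).filter (fun f => phi N f ∈ E2)).card : ℝ) ≤
        ((PL N).filter (fun f => phi N f ∈ E1)).card +
          ((PL N).filter (fun f => phi N f ∈ E2)).card := by exact_mod_cast h3
    have hP0 : (0 : ℝ) ≤ (PL N).card := Nat.cast_nonneg _
    have h5 := mul_le_mul_of_nonneg_right hexp hP0
    calc _ ≤ _ := h4
      _ ≤ Real.exp (-y + K * Real.log N ^ 2) * (PL N).card +
          Real.exp (-y + K * Real.log N ^ 2) * (PL N).card := add_le_add f1 f2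
      _ ≤ _ := by linarith
  exact le_trans (Nat.cast_le.2 (Finset.card_le_card hsub)) hfin

end Pool.Agent.U126.QL
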